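import Pool.Agent.Helper56.SX.Stm

/-! Package XC. -/

set_option autoImplicit false

namespace Pool.Agent.Helper56.SX

open Set Module Pool.Agent.Helper35.EM Pool.Agent.Helper56.EM Pool.Agent.Helper56.SA

/-- a rational multiple of `2 i` is not the square root of a positive integer -/
theorem ne_sqrt {n : ℕ} (hn : 1 ≤ n) {γ : ℚ} (h : (γ : ℂ) * (2 * Complex.I) = (Real.sqrt n : ℂ)) :
    False := by
  have h1 := congrArg Complex.re h
  simp at h1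
  have h2 : (0 : ℝ) < Real.sqrt n := Real.sqrt_pos.2 (by exact_mod_cast hn)
  linarith

theorem sqrt_cl (n : ℕ) (A : Set ℂ) : (Real.sqrt n : ℂ) ∈ M.closure A := by
  apply cl_empty_le
  apply cl_of_pow (n := 2) two_ne_zero
  rw [← Complex.ofReal_pow, Real.sq_sqrt (Nat.cast_nonneg n)]
  have := cl_ratCast ∅ (n : ℚ)
  simpa using this

theorem xc : S_XC := by
  intro t ht y
  have hq : ∀ (r : ℚ) (A : Set ℂ), (r : ℂ) ∈ M.closure A := fun r A => cl_ratCast A r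
  have h2I : ∀ A : Set ℂ, (2 * Complex.I : ℂ) ∈ M.closure A := fun A => two_I_mem A
  have n0 : (t 0 : ℂ) ∈ M.closure (Fn t 2) := Fn_mem (by norm_num)
  have n1 : (t 1 : ℂ) ∈ M.closure (Fn t 2) := Fn_mem (by norm_num)
  have n0' : (t 0 : ℂ) ∈ M.closure (Fn t 1) := Fn_mem (by norm_num)
  -- general comparison
  have key : ∀ w z : ℂ, w ∈ M.closure (Fn t 2) →
      (w, z) ∈ PP ![1, t 2, t 0, t 0 * t 2, t 1 * t 2] y (t 1) →
      ∃ (α : Fin 5 → ℚ) (γ : ℚ), (α 0 : ℂ) + α 2 * t 0 + γ * (2 * Complex.I) * t 1 - w = 0 := by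
    intro w z hw h
    obtain ⟨α, γ, h1, -⟩ := mem_PP h
    rw [Fin.sum_univ_five] at h1
    have h1' : w = (α 0 : ℂ) * ((1 : ℝ) : ℂ) + (α 1 : ℂ) * ((t 2 : ℝ) : ℂ) +
      (α 2 : ℂ) * ((t 0 : ℝ) : ℂ) + (α 3 : ℂ) * ((t 0 * t 2 : ℝ) : ℂ) +
      (α 4 : ℂ) * ((t 1 * t 2 : ℝ) : ℂ) + γ * (2 * Complex.I * (t 1 : ℂ)) := h1
    push_cast at h1'
    obtain ⟨k1, -⟩ := l2 (s := Fn t 2) (b := (t 2 : ℂ))
      (u := α 0 + α 2 * t 0 + γ * (2 * Complex.I) * t 1 - w)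
      (v := α 1 + α 3 * t 0 + α 4 * t 1) (Fn_not ht le_rfl)
      (cl_sub (cl_add (cl_add (hq _ _) (cl_mul (hq _ _) n0))
        (cl_mul (cl_mul (hq _ _) (h2I _)) n1)) hw)
      (cl_add (cl_add (hq _ _) (cl_mul (hq _ _) n0)) (cl_mul (hq _ _) n1))
      (by rw [h1']; ring)
    exact ⟨α, γ, k1⟩
  refine ⟨Fn_not_empty ht 1, ?_, ?_, ?_⟩
  · intro z hz
    obtain ⟨α, γ, h⟩ := key _ z (cl_pow 2 n0) hz
    obtain ⟨k1, k2⟩ := l2 (s := Fn t 1) (b := (t 1 : ℂ)) (u := α 0 + α 2 * t 0 - (t 0 : ℂ) ^ 2)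
      (v := γ * (2 * Complex.I)) (Fn_not ht le_rfl)
      (cl_sub (cl_add (hq _ _) (cl_mul (hq _ _) n0')) (cl_pow 2 n0'))
      (cl_mul (hq _ _) (h2I _)) (by linear_combination h)
    have h3 := quad (Fn_not_empty ht 0) (hq (-1) ∅) (hq (α 2) ∅) (hq (α 0) ∅)
      (by push_cast; linear_combination k1)
    have h4 := h3.1
    norm_num at h4
  · intro z hz
    obtain ⟨α, γ, h⟩ := key _ z (cl_pow 2 n1) hz
    have h3 := quad (s := Fn t 1) (b := (t 1 : ℂ)) (Fn_not ht le_rfl) (hq (-1) _)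
      (cl_mul (hq γ _) (h2I _)) (cl_add (hq (α 0) _) (cl_mul (hq (α 2) _) n0'))
      (by push_cast; linear_combination h)
    have h4 := h3.1
    norm_num at h4
  · intro n hn z hz
    exfalso
    obtain ⟨α, γ, h⟩ := key _ z (cl_mul (sqrt_cl n _) n1) hz
    obtain ⟨k1, k2⟩ := l2 (s := Fn t 1) (b := (t 1 : ℂ)) (u := α 0 + α 2 * t 0)
      (v := γ * (2 * Complex.I) - (Real.sqrt n : ℂ)) (Fn_not ht le_rfl)
      (cl_add (hq _ _) (cl_mul (hq _ _) n0'))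
      (cl_sub (cl_mul (hq _ _) (h2I _)) (sqrt_cl n _)) (by linear_combination h)
    exact ne_sqrt hn (sub_eq_zero.1 k2)

end Pool.Agent.Helper56.SX
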