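import Pool.Agent.Helper56.SX.XC

/-! Package XD. -/

set_option autoImplicit false

namespace Pool.Agent.Helper56.SX

open Set Module Pool.Agent.Helper35.EM Pool.Agent.Helper56.EM Pool.Agent.Helper56.SA

theorem xd : S_XD := by
  intro t ht s hs hirr y
  have hq : ∀ (r : ℚ) (A : Set ℂ), (r : ℂ) ∈ M.closure A := fun r A => cl_ratCast A r
  have h2I : ∀ A : Set ℂ, (2 * Complex.I : ℂ) ∈ M.closure A := fun A => two_I_mem A
  have hsc : ∀ A : Set ℂ, (s : ℂ) ∈ M.closure A := fun A => cl_empty_le hs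
  have n0 : (t 0 : ℂ) ∈ M.closure (Fn t 1) := Fn_mem (by norm_num)
  have key : ∀ w z : ℂ, w ∈ M.closure (Fn t 1) →
      (w, z) ∈ PP ![1, t 1, t 0, t 0 * t 1, (s - t 0) * t 1] y (s - t 0) →
      ∃ (α : Fin 5 → ℚ) (γ : ℚ),
        (α 0 : ℂ) + α 2 * t 0 + γ * (2 * Complex.I) * (s - t 0) - w = 0 := by
    intro w z hw h
    obtain ⟨α, γ, h1, -⟩ := mem_PP h
    rw [Fin.sum_univ_five] at h1
    have h1' : w = (α 0 : ℂ) * ((1 : ℝ) : ℂ) + (α 1 : ℂ) * ((t 1 : ℝ) : ℂ) +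
      (α 2 : ℂ) * ((t 0 : ℝ) : ℂ) + (α 3 : ℂ) * ((t 0 * t 1 : ℝ) : ℂ) +
      (α 4 : ℂ) * (((s - t 0) * t 1 : ℝ) : ℂ) +
      γ * (2 * Complex.I * ((s - t 0 : ℝ) : ℂ)) := h1
    push_cast at h1'
    obtain ⟨k1, -⟩ := l2 (s := Fn t 1) (b := (t 1 : ℂ))
      (u := α 0 + α 2 * t 0 + γ * (2 * Complex.I) * (s - t 0) - w)
      (v := α 1 + α 3 * t 0 + α 4 * (s - t 0)) (Fn_not ht le_rfl)
      (cl_sub (cl_add (cl_add (hq _ _) (cl_mul (hq _ _) n0))
        (cl_mul (cl_mul (hq _ _) (h2I _)) (cl_sub (hsc _) n0))) hw)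
      (cl_add (cl_add (hq _ _) (cl_mul (hq _ _) n0)) (cl_mul (hq _ _) (cl_sub (hsc _) n0)))
      (by rw [h1']; ring)
    exact ⟨α, γ, k1⟩
  have hpn : ((s - t 0 : ℝ) : ℂ) ∉ M.closure ∅ := by
    intro h
    apply Fn_not_empty ht 0
    have : (t 0 : ℂ) = (s : ℂ) - ((s - t 0 : ℝ) : ℂ) := by push_cast; ring
    rw [this]
    exact cl_sub (hsc _) h
  refine ⟨hpn, ?_, ?_, ?_⟩
  · intro z hz
    obtain ⟨α, γ, h⟩ := key _ z (cl_pow 2 n0) hz
    have h3 := quad (Fn_not_empty ht 0) (hq (-1) ∅)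
      (cl_sub (hq (α 2) ∅) (cl_mul (hq γ _) (h2I _)))
      (cl_add (hq (α 0) ∅) (cl_mul (cl_mul (hq γ _) (h2I _)) (hsc _)))
      (by push_cast; linear_combination h)
    have h4 := h3.1
    norm_num at h4
  · intro z hz
    have hz' : (((s : ℂ) - t 0) ^ 2, z) ∈
        PP ![1, t 1, t 0, t 0 * t 1, (s - t 0) * t 1] y (s - t 0) := by
      have e : ((s - t 0 : ℝ) : ℂ) = (s : ℂ) - t 0 := by push_cast; rfl
      rw [← e]; exact hz
    obtain ⟨α, γ, h⟩ := key _ z (cl_pow 2 (cl_sub (hsc _) n0)) hz'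
    have h3 := quad (Fn_not_empty ht 0) (hq (-1) ∅)
      (cl_add (cl_sub (hq (α 2) ∅) (cl_mul (hq γ _) (h2I _))) (cl_mul (hq 2 _) (hsc _)))
      (cl_sub (cl_add (hq (α 0) ∅) (cl_mul (cl_mul (hq γ _) (h2I _)) (hsc _)))
        (cl_pow 2 (hsc _)))
      (by push_cast; linear_combination h)
    have h4 := h3.1
    norm_num at h4
  · intro n hn z hz
    exfalso
    have hz' : ((Real.sqrt n : ℂ) * ((s : ℂ) - t 0), z) ∈
        PP ![1, t 1, t 0, t 0 * t 1, (s - t 0) * t 1] y (s - t 0) := by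
      have e : ((s - t 0 : ℝ) : ℂ) = (s : ℂ) - t 0 := by push_cast; rfl
      rw [← e]; exact hz
    obtain ⟨α, γ, h⟩ := key _ z (cl_mul (sqrt_cl n _) (cl_sub (hsc _) n0)) hz'
    obtain ⟨k1, k2⟩ := l2 (s := ∅) (b := (t 0 : ℂ))
      (u := α 0 + γ * (2 * Complex.I) * s - (Real.sqrt n : ℂ) * s)
      (v := α 2 - γ * (2 * Complex.I) + (Real.sqrt n : ℂ)) (Fn_not_empty ht 0)
      (cl_sub (cl_add (hq _ _) (cl_mul (cl_mul (hq _ _) (h2I _)) (hsc _)))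
        (cl_mul (sqrt_cl n _) (hsc _)))
      (cl_add (cl_sub (hq _ _) (cl_mul (hq _ _) (h2I _))) (sqrt_cl n _))
      (by linear_combination h)
    have r1 := congrArg Complex.re k1
    have r2 := congrArg Complex.re k2
    simp at r1 r2
    have hpos : (0 : ℝ) < Real.sqrt n := Real.sqrt_pos.2 (by exact_mod_cast hn)
    have hr : Real.sqrt n = -(α 2 : ℝ) := by linarith
    have hs' : s = ((-(α 0 / α 2) : ℚ) : ℝ) := by
      have h5 : (α 2 : ℝ) ≠ 0 := by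
        intro h6; rw [hr, h6] at hpos; simp at hpos
      push_cast
      rw [eq_comm, ← neg_div, div_eq_iff h5]
      rw [hr] at r1
      linarith
    exact hirr ⟨_, hs'.symm⟩

end Pool.Agent.Helper56.SX
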